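import Pool.Agent.H.MP_84fce2_co.B

set_option autoImplicit false

namespace Pool.Agent.Results.MP_84fce2_co.Finite

open Pool.Agent.H.MP_84fce2_co Finset Equiv ComplexConjugate

/-- only the identity isometry of the plane preserves `c` -/
def Distinguishing {k : ℕ} (c : ℂ → Fin k) : Prop :=
  ∀ g : ℂ ≃ᵢ ℂ, (∀ z, c (g z) = c z) → g = 1

/-- trivial pointwise stabiliser -/
def Admissible (W : Set ℂ) : Prop := ∀ g : ℂ ≃ᵢ ℂ, (∀ w ∈ W, g w = w) → g = 1

/-- every 2-colouring of the complement of `W` extends to a distinguishing one -/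
def Extends (W : Set ℂ) : Prop :=
  ∀ c : ↥(Wᶜ) → Fin 2, ∃ c' : ℂ → Fin 2, (∀ z : ↥(Wᶜ), c' z = c z) ∧ Distinguishing c'

open Classical in
noncomputable def col (c : ℂ → Fin 2) (S : Finset ℂ) (x : ℂ) : Fin 2 :=
  if x ∈ S then c x + 1 else c x

lemma col_ext {c : ℂ → Fin 2} {S T : Finset ℂ} {x : ℂ} (h : col c S x = col c T x) :
    x ∈ S ↔ x ∈ T := by
  have : ∀ a : Fin 2, a + 1 ≠ a := by decide
  unfold col at h
  split_ifs at h with h1 h2 h2
  exacts [by simp [h1, h2], (this _ h).elim, (this _ h.symm).elim, by simp [h1, h2]]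

lemma fin (c : ℂ → Fin 2) (U : Finset ℂ) (hU : U.card ≤ 1000) (σ : ℂ →+* ℂ)
    (hσ : ∀ z, σ (σ z) = z) (G : Finset (Perm ℂ)) (hG : 2 ^ 166 ≤ G.card)
    (h1 : ∀ g ∈ G, ∃ a b, a ≠ 0 ∧ ∀ z, g z = a * σ z + b) (γ : Finset ℂ → Perm ℂ)
    (h2 : ∀ g ∈ G, ∃ S ⊆ U, γ S = g ∧ ∀ x, col c S (g x) = col c S x) : False := by
  classical
  choose! a b h0 h1 using h1
  choose! S s1 s2 s3 using h2
  have off : ∀ g ∈ G, ∀ x, x ∉ U → col c (S g) x = c x := fun g hg x hx =>
    if_neg fun e => hx (s1 g hg e)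
  obtain ⟨G', g1, g2, d, E, e1, e2, e3⟩ := geo c σ hσ a b (k := 2000) (M := 148000 ^ 4)
    (by norm_num) G (le_trans (by norm_num) hG) h0 h1 fun g hg =>
      ⟨U ∪ U.image g.symm, (card_union_le _ _).trans (by
        have : (U.image g.symm).card ≤ U.card := card_image_le
        omega), fun x hx => by
        rw [mem_union, not_or] at hx
        rw [← off g hg x hx.1, ← s3 g hg, off g hg _ fun e => hx.2 (mem_image.2 ⟨_, e, by simp⟩)]⟩
  set V := U ∪ E with hV
  have v1 : V.card ≤ 145000 := (card_union_le _ _).trans (by omega)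
  set F : Perm ℂ → Finset ℂ := fun g => V.filter fun x => col c (S g) x ≠ d x with hF
  have f1 : ∀ g ∈ G', ∀ x ∈ F g, g x ∈ V := fun g hg x hx => by
    by_contra h
    rw [hV, mem_union, not_or] at h
    refine (mem_filter.1 hx).2 ?_
    rw [← s3 g (g1 hg), ← e3 g hg, off g (g1 hg) _ h.1, e2 _ h.2]
  have a1 : (G'.filter fun g => (F g).card ≤ 1).card ≤ (insert ∅ (V.image fun x => {x})).card :=
    card_le_card_of_injOn F (fun g hg => by
      obtain ⟨x, hx⟩ := card_le_one_iff_subset_singleton.1 (mem_filter.1 hg).2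
      rcases subset_singleton_iff.1 hx with e | e
      · simp [e]
      · exact mem_insert_of_mem (mem_image.2 ⟨x, mem_of_mem_filter x
          (show x ∈ F g by simp [e]), e.symm⟩)) fun g hg h hh e => by
      have hg := g1 (mem_filter.1 hg).1
      have hh := g1 (mem_filter.1 hh).1
      rw [← s2 g hg, ← s2 h hh]
      congr 1
      ext x
      by_cases hx : x ∈ U
      · have : x ∈ F g ↔ x ∈ F h := by rw [e]
        simp only [hF, mem_filter, hV, mem_union, hx, true_or, true_and] at this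
        exact col_ext ((by decide : ∀ p q r : Fin 2, (p ≠ r ↔ q ≠ r) → p = q) _ _ _ this)
      · exact iff_of_false (fun e => hx (s1 g hg e)) fun e => hx (s1 h hh e)
  have ex : ∀ g ∈ G'.filter fun g => ¬ (F g).card ≤ 1, ∃ x ∈ F g, ∃ y ∈ F g, x ≠ y :=
    fun g hg => one_lt_card.1 (not_le.1 (mem_filter.1 hg).2)
  choose! x x1 y y1 xy using ex
  have a2 : (G'.filter fun g => ¬ (F g).card ≤ 1).card ≤ (V ×ˢ V ×ˢ V ×ˢ V).card :=
    card_le_card_of_injOn (fun g => (x g, y g, g (x g), g (y g))) (fun g hg => by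
      simp only [coe_product, Set.mem_prod, mem_coe]
      exact ⟨mem_of_mem_filter _ (x1 g hg), mem_of_mem_filter _ (y1 g hg),
        f1 g (mem_filter.1 hg).1 _ (x1 g hg), f1 g (mem_filter.1 hg).1 _ (y1 g hg)⟩)
      fun g hg h hh e => by
        have ne := xy h hh
        have hg := g1 (mem_filter.1 hg).1
        have hh := g1 (mem_filter.1 hh).1
        simp only [Prod.mk.injEq] at e
        obtain ⟨k1, k2, k3, k4⟩ := e
        rw [k1, h1 g hg, h1 h hh] at k3
        rw [k2, h1 g hg, h1 h hh] at k4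
        have k5 : a g = a h := mul_right_cancel₀ (sub_ne_zero.2 (σ.injective.ne ne))
          (by linear_combination k3 - k4)
        ext z
        rw [h1 g hg, h1 h hh]; linear_combination k3 + (σ z - σ (x h)) * k5
  have a3 := card_filter_add_card_filter_not (s := G') fun g => (F g).card ≤ 1
  have a4 := (card_insert_le (∅ : Finset ℂ) (V.image fun x => {x})).trans
    (Nat.succ_le_succ (card_image_le.trans v1))
  have a5 : (V ×ˢ V ×ˢ V ×ˢ V).card ≤ 145000 * (145000 * (145000 * 145000)) := by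
    simp only [card_product]; gcongr
  omega

lemma cls (g : ℂ ≃ᵢ ℂ) : (∃ a b, a ≠ 0 ∧ ∀ z, g z = a * z + b) ∨
    ∃ a b, a ≠ 0 ∧ ∀ z, g z = a * conj z + b := by
  obtain ⟨a, h⟩ := linear_isometry_complex g.toRealLinearIsometryEquiv
  refine h.imp (fun h => ⟨a, g 0, a.coe_ne_zero, fun z => ?_⟩) fun h =>
    ⟨a, g 0, a.coe_ne_zero, fun z => ?_⟩ <;>
  · have := g.toRealLinearIsometryEquiv_apply z
    rw [h] at this
    simp at this
    rw [this]; ring

def Dir (g : Perm ℂ) : Prop := ∃ a b, a ≠ 0 ∧ ∀ z, g z = a * z + b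

lemma core (c : ℂ → Fin 2) (U : Finset ℂ) (hU : U.card ≤ 1000)
    (h : ∀ S ⊆ U, ∃ g : ℂ ≃ᵢ ℂ, (∀ x, col c S (g x) = col c S x) ∧
      499 ≤ (U.filter fun x => g x ≠ x).card) : False := by
  classical
  choose! γ h1 h2 using h
  set G := U.powerset.image fun S => (γ S).toEquiv with hG
  have u := (h2 ∅ (empty_subset _)).trans (card_filter_le _ _)
  have k := card_le_mul_card_image (f := fun S => (γ S).toEquiv) U.powerset (2 ^ (U.card - 167))
    fun g hg => by
      obtain ⟨T, hT, rfl⟩ := mem_image.1 hg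
      obtain ⟨I, i1, i2, i3⟩ := indep (γ T).toEquiv _ fun x hx =>
        (mem_filter (s := U) (p := fun x => γ T x ≠ x)).1 hx |>.2
      have := h2 T (mem_powerset.1 hT)
      refine (card_le_card_of_injOn (t := (U \ I).powerset) (· \ I) (fun S hS => mem_powerset.2
        (sdiff_subset_sdiff (mem_powerset.1 (mem_filter.1 hS).1) (Subset.refl _)))
        fun S hS R hR e => ?_).trans ?_
      · have o : ∀ x, x ∉ I → (x ∈ S ↔ x ∈ R) := fun x hx => by
          simpa [hx] using Finset.ext_iff.1 e x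
        ext x
        by_cases hx : x ∈ I
        · have a := h1 S (mem_powerset.1 (mem_filter.1 hS).1) x
          have b := h1 R (mem_powerset.1 (mem_filter.1 hR).1) x
          rw [IsometryEquiv.toEquiv_injective (mem_filter.1 hS).2] at a
          rw [IsometryEquiv.toEquiv_injective (mem_filter.1 hR).2] at b
          apply col_ext (c := c)
          rw [← a, ← b]
          exact if_congr (o _ (i3 x hx)) rfl rfl
        · exact o x hx
      · rw [card_powerset, card_sdiff_of_subset (i1.trans (filter_subset _ _))]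
        exact Nat.pow_le_pow_right two_pos (by omega)
  rw [card_powerset, ← hG, show U.card = U.card - 167 + 167 by omega, pow_add,
    Nat.add_sub_cancel] at k
  have k := Nat.le_of_mul_le_mul_left k (by positivity)
  have a := card_filter_add_card_filter_not (s := G) Dir
  have m : ∀ g ∈ G, ∃ S ⊆ U, (γ S).toEquiv = g ∧ ∀ x, col c S (g x) = col c S x := fun g hg => by
    obtain ⟨T, hT, rfl⟩ := mem_image.1 hg
    exact ⟨T, mem_powerset.1 hT, rfl, h1 T (mem_powerset.1 hT)⟩
  by_cases l : 2 ^ 166 ≤ (G.filter Dir).card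
  · exact fin c U hU (RingHom.id ℂ) (fun _ => rfl) _ l (fun g hg => (mem_filter.1 hg).2) _
      fun g hg => m g (mem_filter.1 hg).1
  · refine fin c U hU (starRingEnd ℂ) Complex.conj_conj _
      (Nat.le_of_add_le_add_left (a := (G.filter Dir).card) (le_trans (by omega) a.ge))
      (fun g hg => ?_) _ fun g hg => m g (mem_filter.1 hg).1
    obtain ⟨T, -, rfl⟩ := mem_image.1 (mem_filter.1 hg).1
    exact (cls (γ T)).resolve_left (mem_filter.1 hg).2

lemma two {g : ℂ ≃ᵢ ℂ} {x y : ℂ} (ne : x ≠ y) (h1 : g x = x) (h2 : g y = y) (n : g ≠ 1) (z : ℂ) :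
    g z = (x - y) / conj (x - y) * conj (z - x) + x := by
  rcases cls g with ⟨a, b, -, h⟩ | ⟨a, b, -, h⟩ <;> rw [h] at h1 h2
  · have : a = 1 := mul_right_cancel₀ (sub_ne_zero.2 ne) (by linear_combination h1 - h2)
    refine (n (IsometryEquiv.ext fun z => ?_)).elim
    rw [h]; simp only [IsometryEquiv.coe_one, id]; linear_combination h1 + (z - x) * this
  · have : conj (x - y) ≠ 0 := (map_ne_zero _).2 (sub_ne_zero.2 ne)
    rw [h, show (x - y) / conj (x - y) = a by
      rw [div_eq_iff this, map_sub]; linear_combination h2 - h1, map_sub]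
    linear_combination h1

lemma ext (W : Set ℂ) (hW : (1000 : ℕ∞) ≤ W.encard) (ad : Admissible W) : Extends W := by
  classical
  intro c0
  by_contra hc
  have hs : ∀ c : ℂ → Fin 2, (∀ z : ↥(Wᶜ), c z = c0 z) → ∀ S : Finset ℂ, ↑S ⊆ W →
      ∃ g : ℂ ≃ᵢ ℂ, (∀ x, col c S (g x) = col c S x) ∧ g ≠ 1 := fun c h S hS => by
    by_contra n
    push Not at n
    exact hc ⟨col c S, fun z => (if_neg fun e => z.2 (hS e)).trans (h z), n⟩
  obtain ⟨U0, u1, u2⟩ := Set.exists_subset_encard_eq hW
  lift U0 to Finset ℂ using Set.finite_of_encard_eq_coe (k := 1000) u2 with U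
  have u2 : U.card = 1000 := by rw [Set.encard_coe_eq_coe_finsetCard] at u2; exact_mod_cast u2
  set c : ℂ → Fin 2 := fun z => if h : z ∈ W then 0 else c0 ⟨z, h⟩ with hcd
  have c1 : ∀ z : ↥(Wᶜ), c z = c0 z := fun z => dif_neg z.2
  by_cases f : ∃ g : ℂ ≃ᵢ ℂ, g ≠ 1 ∧ 500 ≤ (U.filter fun x => g x = x).card
  · obtain ⟨r, r1, r2⟩ := f
    obtain ⟨R, a1, a2⟩ := exists_subset_card_eq r2
    obtain ⟨p, p1, p2⟩ : ∃ p ∈ W, r p ≠ p := by
      by_contra n
      push Not at n
      exact r1 (ad r n)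
    have fx : ∀ x ∈ R, r x = x := fun x hx => (mem_filter.1 (a1 hx)).2
    refine core (Function.update c p (c (r p) + 1)) R (by omega) fun S hS => ?_
    obtain ⟨g, g1, g2⟩ := hs (Function.update c p (c (r p) + 1)) (fun z => by
      rw [Function.update_of_ne fun (e : (z : ℂ) = p) => z.2 (e ▸ p1), c1]) S
      fun x hx => u1 (mem_of_mem_filter _ (a1 (hS hx)))
    refine ⟨g, g1, ?_⟩
    have := card_filter_add_card_filter_not (s := R) fun x => g x = x
    by_contra n
    obtain ⟨x, hx, y, hy, ne⟩ := one_lt_card.1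
      (show 1 < (R.filter fun x => g x = x).card by simp only [ne_eq] at n; omega)
    rw [mem_filter] at hx hy
    have e := g1 p
    rw [two ne hx.2 hy.2 g2, ← two ne (fx x hx.1) (fx y hy.1) r1, col, col,
      if_neg fun e => p2 (r.injective (fx _ (hS e))), if_neg fun e => p2 (fx _ (hS e)),
      Function.update_of_ne p2, Function.update_self] at e
    exact (by decide : ∀ a : Fin 2, a ≠ a + 1) _ e
  · push Not at f
    refine core c U u2.le fun S hS => ?_
    obtain ⟨g, g1, g2⟩ := hs c c1 S ((coe_subset.2 hS).trans u1)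
    have := card_filter_add_card_filter_not (s := U) fun x => g x = x
    have := f g g2
    exact ⟨g, g1, by simp only [ne_eq]; omega⟩

theorem result : IsLeast {k : ℕ | ∃ c : ℂ → Fin k, Distinguishing c} 2 ∧
    ∃ n : ℕ, ∀ W : Set ℂ, (n : ℕ∞) ≤ W.encard → Admissible W → Extends W := by
  refine ⟨⟨?_, ?_⟩, 1000, ext⟩
  · obtain ⟨c, -, h⟩ := ext Set.univ (by simp)
      (fun g h => IsometryEquiv.ext fun z => h z trivial) fun _ => 0
    exact ⟨c, h⟩
  · rintro k ⟨c, h⟩
    by_contra n
    have := h (IsometryEquiv.addRight 1) fun z => by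
      have := (c z).2
      have := (c (IsometryEquiv.addRight 1 z)).2
      exact Fin.ext (by omega)
    simpa using congrArg (fun g : ℂ ≃ᵢ ℂ => g 0) this

end Pool.Agent.Results.MP_84fce2_co.Finite
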